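import Pool.Agent.X171.Env.Defs

/-!
# Banach envelopes of `p`-Schur spaces may fail the Schur property, for every `p < 1`
-/

set_option autoImplicit false

namespace Pool.Agent.Results.MP_4b0054_an.EnvelopeFailsSchur

open Pool.Agent.X171.Env

/-- For every `p` in `(0, 1)` there is a quasi-Banach space with the Schur `p`-property that has
a Banach envelope, and all of whose Banach envelopes fail the Schur property. -/
theorem result (p : ℝ) (hp : 0 < p) (hp1 : p < 1) :
    ∃ (X : Type) (_ : AddCommGroup X) (_ : Module ℝ X) (q : X → ℝ),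
      IsQuasiBanach q ∧ SchurP p q ∧
      (∃ (Xh : Type) (_ : NormedAddCommGroup Xh) (_ : NormedSpace ℝ Xh) (J : X →ₗ[ℝ] Xh),
        IsBanachEnvelope q J) ∧
      ∀ (Xh : Type) [NormedAddCommGroup Xh] [NormedSpace ℝ Xh] (J : X →ₗ[ℝ] Xh),
        IsBanachEnvelope q J → ¬ HasSchur Xh := by
  obtain ⟨P, rfl⟩ := exists_par p hp hp1
  exact ⟨X P, inferInstance, inferInstance, q P, isQuasiBanach_q P, schurP_q P,
    exists_envelope (q P) (isQuasiBanach_q P).nonneg, fun Xh _ _ J hJ => not_hasSchur P hJ⟩

end Pool.Agent.Results.MP_4b0054_an.EnvelopeFailsSchur
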